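import Pool.Agent.W792.WA.Stm

set_option autoImplicit false

noncomputable section

namespace Pool.Agent.W701.WA.Stab

open MeasureTheory Filter Pool.Agent.W792.LL Pool.Agent.W792.WA

/-- the basic identity of hyperbolic geometry -/
lemma ident (a b : ℂ) :
    ‖1 - (starRingEnd ℂ) a * b‖ ^ 2 = ‖a - b‖ ^ 2 + (1 - ‖a‖ ^ 2) * (1 - ‖b‖ ^ 2) := by
  have h : ∀ z : ℂ, ‖z‖ ^ 2 = z.re * z.re + z.im * z.im := fun z => by
    rw [← Complex.normSq_eq_norm_sq, Complex.normSq_apply]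
  rw [h, h, h, h]
  simp only [Complex.sub_re, Complex.sub_im, Complex.mul_re, Complex.mul_im, Complex.one_re,
    Complex.one_im, Complex.conj_re, Complex.conj_im]
  ring

lemma scalar (σ e T : ℝ) (a b t : ℂ) (hσ : 0 < σ) (he : 0 ≤ e) (he2 : 2 * e ≤ σ) (hT : 0 ≤ T)
    (ha : ‖a‖ ≤ 1) (ht : ‖t‖ ≤ 1 - σ) (hbt : ‖b - t‖ ≤ e)
    (hab : ‖a - b‖ ^ 2 ≤ T * ((1 - ‖a‖ ^ 2) * (1 - ‖b‖ ^ 2))) :
    ‖a - t‖ ^ 2 + (1 - ‖a‖ ^ 2) * (1 - ‖t‖ ^ 2)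
      ≤ (1 + 14 * (e / σ)) * (1 + T) * ((1 - ‖a‖ ^ 2) * (1 - ‖t‖ ^ 2)) := by
  set x := 2 * (e / σ) with hx
  have hx0 : 0 ≤ x := by positivity
  have hx1 : x ≤ 1 := by
    rw [hx, ← mul_div_assoc, div_le_one hσ]
    exact he2
  have hxσ : x * σ = 2 * e := by
    rw [hx]; field_simp
  have hσ1 : σ ≤ 1 := by
    have := norm_nonneg t
    linarith
  -- bounds for b
  have hb1 : ‖b‖ ≤ ‖t‖ + e := by
    have : ‖b‖ ≤ ‖b - t‖ + ‖t‖ := by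
      have := norm_add_le (b - t) t
      rwa [sub_add_cancel] at this
    linarith
  have hb2 : ‖t‖ ≤ ‖b‖ + e := by
    have : ‖t‖ ≤ ‖t - b‖ + ‖b‖ := by
      have := norm_add_le (t - b) b
      rwa [sub_add_cancel] at this
    rw [norm_sub_rev] at this
    linarith
  have hb0 := norm_nonneg b
  have ht0 := norm_nonneg t
  have ha0 := norm_nonneg a
  have hA : 0 ≤ 1 - ‖a‖ ^ 2 := by nlinarith
  -- P_b lower bound
  have hP1 : 1 - ‖b‖ ≤ ‖1 - (starRingEnd ℂ) a * b‖ := by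
    have h1 := norm_sub_norm_le (1 : ℂ) ((starRingEnd ℂ) a * b)
    rw [norm_one, norm_mul, RCLike.norm_conj] at h1
    have h2 : ‖a‖ * ‖b‖ ≤ 1 * ‖b‖ := mul_le_mul_of_nonneg_right ha hb0
    linarith
  have hP2 : ‖1 - (starRingEnd ℂ) a * t‖ ≤ ‖1 - (starRingEnd ℂ) a * b‖ + e := by
    have e1 : 1 - (starRingEnd ℂ) a * t
        = (1 - (starRingEnd ℂ) a * b) + (starRingEnd ℂ) a * (b - t) := by ring
    rw [e1]
    refine (norm_add_le _ _).trans ?_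
    rw [norm_mul, RCLike.norm_conj]
    have h2 : ‖a‖ * ‖b - t‖ ≤ 1 * e := mul_le_mul ha hbt (norm_nonneg _) zero_le_one
    linarith
  set Pb := ‖1 - (starRingEnd ℂ) a * b‖ with hPb
  set Pt := ‖1 - (starRingEnd ℂ) a * t‖ with hPt
  have hPb0 : 0 ≤ Pb := norm_nonneg _
  have hPt0 : 0 ≤ Pt := norm_nonneg _
  have hPσ : σ / 2 ≤ Pb := by linarith
  have hePb : e ≤ x * Pb := by
    have : x * (σ / 2) ≤ x * Pb := mul_le_mul_of_nonneg_left hPσ hx0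
    linarith
  have hPP : Pt ≤ (1 + x) * Pb := by linarith
  have hPP2 : Pt ^ 2 ≤ (1 + x) ^ 2 * Pb ^ 2 := by
    rw [← mul_pow]
    exact pow_le_pow_left₀ hPt0 hPP 2
  -- 1 - |b|^2
  have hB : 1 - ‖b‖ ^ 2 ≤ (1 + x) * (1 - ‖t‖ ^ 2) := by
    have h1 : σ ≤ 1 - ‖t‖ ^ 2 := by nlinarith
    have h2 : x * σ ≤ x * (1 - ‖t‖ ^ 2) := mul_le_mul_of_nonneg_left h1 hx0
    have h3 : ‖t‖ ^ 2 - ‖b‖ ^ 2 ≤ 2 * e := by
      rcases le_total ‖t‖ ‖b‖ with h | h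
      · nlinarith
      · nlinarith
    linarith
  have hTt : 0 ≤ 1 - ‖t‖ ^ 2 := by nlinarith
  have h4 : Pb ^ 2 ≤ (1 + T) * ((1 - ‖a‖ ^ 2) * (1 - ‖b‖ ^ 2)) := by
    rw [hPb, ident]
    linarith
  have h5 : Pb ^ 2 ≤ (1 + T) * ((1 - ‖a‖ ^ 2) * ((1 + x) * (1 - ‖t‖ ^ 2))) :=
    h4.trans (mul_le_mul_of_nonneg_left (mul_le_mul_of_nonneg_left hB hA) (by linarith))
  have h61 := mul_nonneg hx0 (sub_nonneg.mpr hx1)
  have h62 := mul_nonneg (mul_nonneg hx0 hx0) (sub_nonneg.mpr hx1)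
  have h6 : (1 + x) ^ 3 ≤ 1 + 7 * x := by nlinarith [h61, h62]
  have h7 : 1 + 14 * (e / σ) = 1 + 7 * x := by rw [hx]; ring
  rw [h7, ← ident, ← hPt]
  have h8 : 0 ≤ (1 + T) * ((1 - ‖a‖ ^ 2) * (1 - ‖t‖ ^ 2)) := by positivity
  calc Pt ^ 2 ≤ (1 + x) ^ 2 * Pb ^ 2 := hPP2
    _ ≤ (1 + x) ^ 2 * ((1 + T) * ((1 - ‖a‖ ^ 2) * ((1 + x) * (1 - ‖t‖ ^ 2)))) :=
        mul_le_mul_of_nonneg_left h5 (by positivity)
    _ = (1 + x) ^ 3 * ((1 + T) * ((1 - ‖a‖ ^ 2) * (1 - ‖t‖ ^ 2))) := by ring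
    _ ≤ (1 + 7 * x) * ((1 + T) * ((1 - ‖a‖ ^ 2) * (1 - ‖t‖ ^ 2))) :=
        mul_le_mul_of_nonneg_right h6 h8
    _ = _ := by ring

theorem main : S_PSI → S_UUC → S_FIX → S_STAB := by
  intro hPSI hUUC hFIX ν _ d ρ _ C q σ γ e w s t hvr hρ hw hq0 hq1 hwq hσ hγ0 hγ1 hs ht hbt hesg hyp
  obtain ⟨hs1, hsfix⟩ := hs
  have he : 0 ≤ e := (norm_nonneg _).trans hbt
  have hσ1 : σ ≤ 1 := by
    have := norm_nonneg t
    linarith
  have ht1 : ‖t‖ ≤ 1 := by linarith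
  have hUs := (hUUC d ρ C q w s hρ hw hq0 hq1.le hwq hs1 (by nlinarith [norm_nonneg s])).2
  have hUt := (hUUC d ρ C q w t hρ hw hq0 hq1.le hwq ht1 (by nlinarith [norm_nonneg t])).2
  have hfix := (hFIX ν d ρ C q w hvr hρ hw hq0 hq1 hwq).2.1 s ⟨hs1, hsfix⟩
  have hpsi := hPSI ν d q (UU ρ w s) (UU ρ w t) hq0 hq1 hUs hUt
  set κ := (1 - q ^ 2) * vr ν / 4 with hκ
  have hκ0 : 0 < κ := by
    have : 0 < 1 - q ^ 2 := by nlinarith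
    positivity
  have hsk : ∀ k, κ ≤ 1 - ‖s k‖ ^ 2 := fun k => by linarith [hfix k]
  have htk : ∀ k, σ ≤ 1 - ‖t k‖ ^ 2 := fun k => by
    have h1 := (t.norm_coe_le_norm k).trans ht
    have h0 := norm_nonneg (t k)
    nlinarith
  have hD : ∀ k, 0 < (1 - ‖s k‖ ^ 2) * (1 - ‖t k‖ ^ 2) := fun k =>
    mul_pos (hκ0.trans_le (hsk k)) (hσ.trans_le (htk k))
  have hD1 : ∀ k, (1 - ‖s k‖ ^ 2) * (1 - ‖t k‖ ^ 2) ≤ 1 := fun k => by
    have h1 : 1 - ‖s k‖ ^ 2 ≤ 1 := by nlinarith [sq_nonneg ‖s k‖]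
    have h2 : 1 - ‖t k‖ ^ 2 ≤ 1 := by nlinarith [sq_nonneg ‖t k‖]
    calc (1 - ‖s k‖ ^ 2) * (1 - ‖t k‖ ^ 2) ≤ 1 * 1 :=
          mul_le_mul h1 h2 (hσ.le.trans (htk k)) zero_le_one
      _ = 1 := one_mul 1
  set f : UnitAddTorus (Fin d) → ℝ :=
    fun k => ‖s k - t k‖ ^ 2 / ((1 - ‖s k‖ ^ 2) * (1 - ‖t k‖ ^ 2)) with hf
  have hbdd : BddAbove (Set.range f) := by
    refine ⟨4 / (κ * σ), ?_⟩
    rintro _ ⟨k, rfl⟩
    simp only [hf]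
    have h1 : ‖s k - t k‖ ≤ 2 := by
      have := norm_sub_le (s k) (t k)
      have h2 := (s.norm_coe_le_norm k).trans hs1
      have h3 := (t.norm_coe_le_norm k).trans ht1
      linarith
    refine div_le_div₀ (by norm_num) ?_ (by positivity) (mul_le_mul (hsk k) (htk k) hσ.le
      (hκ0.le.trans (hsk k)))
    calc ‖s k - t k‖ ^ 2 ≤ 2 ^ 2 := pow_le_pow_left₀ (norm_nonneg _) h1 2
      _ = 4 := by norm_num
  set X := ⨆ k, f k with hX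
  have hfX : ∀ k, ‖s k - t k‖ ^ 2 ≤ X * ((1 - ‖s k‖ ^ 2) * (1 - ‖t k‖ ^ 2)) := fun k => by
    have h1 : f k ≤ X := le_ciSup hbdd k
    exact (div_le_iff₀ (hD k)).mp h1
  have hX0 : 0 ≤ X := by
    have h1 : f 0 ≤ X := le_ciSup hbdd 0
    have h2 : 0 ≤ f 0 := div_nonneg (sq_nonneg _) (hD 0).le
    linarith
  have hU : ∀ k, ‖UU ρ w s k - UU ρ w t k‖ ^ 2
      ≤ ((1 - γ) * X) * ((1 - ‖UU ρ w s k‖ ^ 2) * (1 - ‖UU ρ w t k‖ ^ 2)) := fun k => by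
    have h1 := hyp k
    have hDU : 0 ≤ (1 - ‖UU ρ w s k‖ ^ 2) * (1 - ‖UU ρ w t k‖ ^ 2) := by
      have h2 := ((UU ρ w s).norm_coe_le_norm k).trans hUs
      have h3 := ((UU ρ w t).norm_coe_le_norm k).trans hUt
      have h4 := norm_nonneg (UU ρ w s k)
      have h5 := norm_nonneg (UU ρ w t k)
      exact mul_nonneg (by nlinarith) (by nlinarith)
    have h6 : (1 - γ) * ‖s k - t k‖ ^ 2 * ((1 - ‖UU ρ w s k‖ ^ 2) * (1 - ‖UU ρ w t k‖ ^ 2))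
        ≤ (1 - γ) * (X * ((1 - ‖s k‖ ^ 2) * (1 - ‖t k‖ ^ 2)))
          * ((1 - ‖UU ρ w s k‖ ^ 2) * (1 - ‖UU ρ w t k‖ ^ 2)) :=
      mul_le_mul_of_nonneg_right (mul_le_mul_of_nonneg_left (hfX k) (by linarith)) hDU
    refine le_of_mul_le_mul_right ?_ (hD k)
    calc ‖UU ρ w s k - UU ρ w t k‖ ^ 2 * ((1 - ‖s k‖ ^ 2) * (1 - ‖t k‖ ^ 2)) ≤ _ := h1.trans h6
      _ = _ := by ring
  have hP := hpsi.2.1 ((1 - γ) * X) (mul_nonneg (by linarith) hX0) hU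
  rw [hsfix] at hP
  set y := 14 * (e / σ) with hy
  have hy0 : 0 ≤ y := by positivity
  have hyγ : y ≤ γ / 2 := by
    rw [hy, ← mul_div_assoc, div_le_iff₀ hσ]
    nlinarith
  have he2 : 2 * e ≤ σ := by nlinarith
  have hstep : ∀ k, f k ≤ (1 + y) * (1 + (1 - γ) * X) - 1 := fun k => by
    have h1 := scalar σ e ((1 - γ) * X) (s k) (psi ν (UU ρ w t) k) (t k) hσ he he2
      (mul_nonneg (by linarith) hX0) ((s.norm_coe_le_norm k).trans hs1)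
      ((t.norm_coe_le_norm k).trans ht) (by
        have := (psi ν (UU ρ w t) - t).norm_coe_le_norm k
        rw [ContinuousMap.sub_apply] at this
        exact this.trans hbt) (hP k)
    simp only [hf]
    rw [div_le_iff₀ (hD k)]
    linarith
  have hXle : X ≤ (1 + y) * (1 + (1 - γ) * X) - 1 := ciSup_le hstep
  have hXf : X ≤ 28 * e / (σ * γ) := by
    have h1 : X * (γ / 2) ≤ y := by nlinarith [mul_nonneg hX0 hy0, mul_nonneg (mul_nonneg hX0 hy0) hγ0.le]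
    have h2 : 28 * e / (σ * γ) = y / (γ / 2) := by rw [hy]; field_simp; ring
    rw [h2, le_div_iff₀ (by positivity)]
    exact h1
  have hR : 0 ≤ 28 * e / (σ * γ) := by positivity
  have hfin : ‖s - t‖ ≤ Real.sqrt (28 * e / (σ * γ)) := by
    rw [ContinuousMap.norm_le _ (Real.sqrt_nonneg _)]
    intro k
    rw [ContinuousMap.sub_apply]
    refine Real.le_sqrt_of_sq_le ?_
    calc ‖s k - t k‖ ^ 2 ≤ X * ((1 - ‖s k‖ ^ 2) * (1 - ‖t k‖ ^ 2)) := hfX k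
      _ ≤ X * 1 := mul_le_mul_of_nonneg_left (hD1 k) hX0
      _ ≤ _ := by rw [mul_one]; exact hXf
  calc ‖s - t‖ ^ 2 ≤ Real.sqrt (28 * e / (σ * γ)) ^ 2 := pow_le_pow_left₀ (norm_nonneg _) hfin 2
    _ = _ := Real.sq_sqrt hR

end Pool.Agent.W701.WA.Stab
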